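import Pool.Agent.Helper30.DL.GoalsA

/-! # Packet GAS of MP_b4564f_an: global convergence for smaller `p` -/

set_option autoImplicit false

open Filter Topology Finset

namespace Pool.Agent.Helper97.DL

open Pool.Agent.Helper30.DL

/-- an upper bound `c` for `C r` -/
def Cst (k : ℕ) (r c : ℝ) : Prop :=
  r * (k + 1 / 2) - 1 / 2 + r ^ 2 / 8 ≤ c ∧ (1 + r / 2) ^ 2 / 2 ≤ c

lemma Cst.nonneg {k : ℕ} {r c : ℝ} (h : Cst k r c) : 0 ≤ c :=
  le_trans (by positivity) h.2

lemma sumC' (hS : SumCStmt) {k : ℕ} {r σ c : ℝ} (hr : 0 < r) (h0 : 0 ≤ σ) (h1 : σ ≤ 1)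
    (h : Cst k r c) :
    r * ∑ i ∈ range (k + 1), min (r * (σ + i)) 1 - r * σ ≤ c := by
  refine (hS k r σ hr h0 h1).trans (max_le h.1 (le_trans ?_ h.2))
  have hm0 : 0 ≤ min (r * ((k : ℝ) + 1 / 2)) (1 + r / 2) := le_min (by positivity) (by positivity)
  have := pow_le_pow_left₀ hm0 (min_le_right (r * ((k : ℝ) + 1 / 2)) (1 + r / 2)) 2
  linarith

lemma expA {p : ℝ} (hp : 0 < p) (hp1 : p < 1) (v : ℝ) :
    Real.exp (-(p * v)) ≤ 1 - p + p * Real.exp (-v) := by
  have h := convexOn_exp.2 (Set.mem_univ (0 : ℝ)) (Set.mem_univ (-v)) (by linarith : 0 ≤ 1 - p)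
    hp.le (by ring)
  simp only [smul_eq_mul, mul_zero, zero_add, Real.exp_zero, mul_one] at h
  rw [show -(p * v) = p * -v by ring]
  exact h

lemma expB {p : ℝ} (hp : 0 < p) (hp1 : p < 1) {M v : ℝ} (hM : 0 < M) (h0 : 0 ≤ v) (h1 : v ≤ M) :
    1 - p + p * Real.exp v ≤ Real.exp (v / M * Real.log (1 - p + p * Real.exp M)) := by
  have hθ0 : 0 ≤ v / M := by positivity
  have hθ1 : v / M ≤ 1 := (div_le_one hM).2 h1
  have h := (Real.concaveOn_rpow hθ0 hθ1).2 (Set.mem_Ici.2 (zero_le_one : (0 : ℝ) ≤ 1))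
    (Set.mem_Ici.2 (Real.exp_pos M).le) (by linarith : 0 ≤ 1 - p) hp.le (by ring)
  simp only [smul_eq_mul, Real.one_rpow, mul_one] at h
  have e1 : Real.exp M ^ (v / M) = Real.exp v := by
    rw [← Real.exp_mul]
    congr 1
    field_simp
  have hG : 0 < 1 - p + p * Real.exp M := by
    have := Real.exp_pos M
    have : 0 < p * Real.exp M := by positivity
    linarith
  rw [e1, Real.rpow_def_of_pos hG] at h
  rw [mul_comm (v / M)]
  exact h

lemma stepU (hU : ExtUStmt) (hS : SumCStmt) {k : ℕ} {p : ℝ} {X : ℕ → ℝ} (hp : 0 < p)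
    (hp1 : p < 1) (hX : SolX k p X) (hnt : ¬ Tendsto X atTop (𝓝 1)) {m0 c : ℝ} (h0 : 0 ≤ m0)
    (h1 : m0 < 1) (hc : Cst k p c) (hev : ∀ᶠ n in atTop, m0 ≤ X n) :
    ∀ᶠ n in atTop, X n ≤ Real.exp (c * (-Real.log (1 - p + p * m0)) / p) := by
  have hc0 := hc.nonneg
  have hg0 : 0 < 1 - p + p * m0 := by nlinarith
  have hg1 : 1 - p + p * m0 < 1 := by nlinarith
  set g := 1 - p + p * m0 with hg
  set F := -Real.log g with hF
  have hF0 : 0 < F := by
    have := Real.log_neg hg0 hg1
    linarith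
  have hgF : Real.exp (-F) = g := by rw [hF, neg_neg, Real.exp_log hg0]
  refine (hU k p X hp hp1 hX m0 _ h0 h1.le ?_ ?_ hev).resolve_left hnt
  · exact Real.one_le_exp (by positivity)
  · intro A hgA hA1 hmA
    have hA0 : 0 < A := lt_of_lt_of_le hg0 hgA
    set s := -Real.log A with hs
    have hAs : Real.exp (-s) = A := by rw [hs, neg_neg, Real.exp_log hA0]
    have hs0 : 0 ≤ s := by
      have := Real.log_nonpos hA0.le hA1
      linarith
    have hsF : s ≤ F := by
      have := Real.log_le_log hg0 hgA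
      linarith
    set σ := s / F with hσ
    have hσ0 : 0 ≤ σ := by positivity
    have hσ1 : σ ≤ 1 := (div_le_one hF0).2 hsF
    have hσF : F * σ = s := by rw [hσ]; field_simp
    have hf : ∀ i ∈ range (k + 1), Real.exp (-(F * min (p * (σ + i)) 1)) ≤
        1 - p + p * max m0 (A * g ^ i) := by
      intro i _
      rcases le_total (p * (σ + i)) 1 with h | h
      · rw [min_eq_left h]
        have e1 : A * g ^ i = Real.exp (-(s + i * F)) := by
          rw [← hAs, ← hgF, ← Real.exp_nat_mul, ← Real.exp_add]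
          congr 1
          ring
        have e2 : F * (p * (σ + i)) = p * (s + i * F) := by rw [← hσF]; ring
        rw [e2]
        refine (expA hp hp1 _).trans ?_
        rw [← e1]
        have := le_max_right m0 (A * g ^ i)
        have := mul_le_mul_of_nonneg_left this hp.le
        linarith
      · rw [min_eq_right h, mul_one, hgF]
        have := le_max_left m0 (A * g ^ i)
        have := mul_le_mul_of_nonneg_left this hp.le
        rw [hg]
        linarith
    have hprod : Real.exp (-(F * ∑ i ∈ range (k + 1), min (p * (σ + i)) 1)) ≤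
        ∏ i ∈ range (k + 1), (1 - p + p * max m0 (A * g ^ i)) := by
      rw [mul_sum, ← sum_neg_distrib, Real.exp_sum]
      exact prod_le_prod (fun i _ => (Real.exp_pos _).le) hf
    have hsum := sumC' hS hp hσ0 hσ1 hc
    calc A = Real.exp (-s) := hAs.symm
      _ ≤ Real.exp (c * F / p + -(F * ∑ i ∈ range (k + 1), min (p * (σ + i)) 1)) := by
          apply Real.exp_le_exp.2
          rw [← hσF]
          have h2 : F * (p * ∑ i ∈ range (k + 1), min (p * (σ + i)) 1 - p * σ) ≤ F * c :=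
            mul_le_mul_of_nonneg_left hsum hF0.le
          have h3 : F * (∑ i ∈ range (k + 1), min (p * (σ + i)) 1 - σ) ≤ c * F / p := by
            rw [le_div_iff₀ hp]
            linarith
          linarith
      _ = Real.exp (c * F / p) * Real.exp (-(F * ∑ i ∈ range (k + 1), min (p * (σ + i)) 1)) :=
          Real.exp_add _ _
      _ ≤ _ := mul_le_mul_of_nonneg_left hprod (Real.exp_pos _).le

lemma stepD (hD : ExtDStmt) (hS : SumCStmt) {k : ℕ} {p : ℝ} {X : ℕ → ℝ} (hp : 0 < p)
    (hp1 : p < 1) (hX : SolX k p X) (hnt : ¬ Tendsto X atTop (𝓝 1)) {M ρ c : ℝ} (hM : 0 < M)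
    (hρ : 0 < ρ) (hρM : Real.log (1 - p + p * Real.exp M) ≤ ρ * M) (hc : Cst k ρ c)
    (hev : ∀ᶠ n in atTop, X n ≤ Real.exp M) :
    ∀ᶠ n in atTop, Real.exp (-(M * c)) ≤ X n := by
  have hc0 := hc.nonneg
  have hE1 : 1 < Real.exp M := Real.one_lt_exp_iff.2 hM
  have hG1 : 1 < 1 - p + p * Real.exp M := by nlinarith
  set G := 1 - p + p * Real.exp M with hG
  set F := Real.log G with hF
  have hF0 : 0 < F := Real.log_pos hG1
  have hG0 : 0 < G := by linarith
  have hGF : Real.exp F = G := Real.exp_log hG0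
  refine (hD k p X hp hp1 hX (Real.exp M) _ hE1.le (Real.exp_pos _) ?_ ?_ hev).resolve_left hnt
  · rw [Real.exp_le_one_iff]
    have : 0 ≤ M * c := by positivity
    linarith
  · intro A hA1 hAG hAM
    have hA0 : 0 < A := by linarith
    set s := Real.log A with hs
    have hAs : Real.exp s = A := Real.exp_log hA0
    have hs0 : 0 ≤ s := Real.log_nonneg hA1
    have hsF : s ≤ F := Real.log_le_log hA0 hAG
    set σ := s / F with hσ
    have hσ0 : 0 ≤ σ := by positivity
    have hσ1 : σ ≤ 1 := (div_le_one hF0).2 hsF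
    have hσF : F * σ = s := by rw [hσ]; field_simp
    have hf : ∀ i ∈ range (k + 1), 1 - p + p * min (Real.exp M) (A * G ^ i) ≤
        Real.exp (F * min (ρ * (σ + i)) 1) := by
      intro i _
      have hle : 1 - p + p * min (Real.exp M) (A * G ^ i) ≤ Real.exp F := by
        rw [hGF]
        have := min_le_left (Real.exp M) (A * G ^ i)
        have := mul_le_mul_of_nonneg_left this hp.le
        rw [hG]
        linarith
      rcases le_total (ρ * (σ + i)) 1 with h | h
      · rw [min_eq_left h]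
        have e1 : A * G ^ i = Real.exp (s + i * F) := by
          rw [← hAs, ← hGF, ← Real.exp_nat_mul, ← Real.exp_add]
        have e2 : F * (ρ * (σ + i)) = ρ * (s + i * F) := by rw [← hσF]; ring
        rw [e2]
        have hw0 : 0 ≤ s + i * F := by positivity
        rcases le_total (s + i * F) M with hw | hw
        · have e3 : min (Real.exp M) (A * G ^ i) = Real.exp (s + i * F) := by
            rw [e1]
            exact min_eq_right (Real.exp_le_exp.2 hw)
          rw [e3]
          refine (expB hp hp1 hM hw0 hw).trans (Real.exp_le_exp.2 ?_)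
          rw [← hG, ← hF]
          have h2 : F / M ≤ ρ := (div_le_iff₀ hM).2 hρM
          have e4 : (s + i * F) / M * F = (s + i * F) * (F / M) := by ring
          rw [e4, mul_comm]
          exact mul_le_mul_of_nonneg_right h2 hw0
        · refine hle.trans (Real.exp_le_exp.2 (hρM.trans ?_))
          exact mul_le_mul_of_nonneg_left hw hρ.le
      · rw [min_eq_right h, mul_one]
        exact hle
    have hprod : ∏ i ∈ range (k + 1), (1 - p + p * min (Real.exp M) (A * G ^ i)) ≤
        Real.exp (F * ∑ i ∈ range (k + 1), min (ρ * (σ + i)) 1) := by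
      rw [mul_sum, Real.exp_sum]
      refine prod_le_prod (fun i _ => ?_) hf
      have : 0 ≤ min (Real.exp M) (A * G ^ i) := le_min (Real.exp_pos _).le (by positivity)
      have := mul_nonneg hp.le this
      linarith
    have hsum := sumC' hS hρ hσ0 hσ1 hc
    refine (mul_le_mul_of_nonneg_left hprod (Real.exp_pos _).le).trans ?_
    rw [← Real.exp_add, ← hAs]
    apply Real.exp_le_exp.2
    have h2 : ∑ i ∈ range (k + 1), min (ρ * (σ + i)) 1 - σ ≤ c / ρ := by
      rw [le_div_iff₀ hρ]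
      linarith
    have h3 : F * (∑ i ∈ range (k + 1), min (ρ * (σ + i)) 1 - σ) ≤ F * (c / ρ) :=
      mul_le_mul_of_nonneg_left h2 hF0.le
    have h4 : F * (c / ρ) ≤ M * c := by
      rw [mul_div_assoc', div_le_iff₀ hρ]
      have := mul_le_mul_of_nonneg_right hρM hc0
      linarith
    rw [← hσF]
    linarith

/-! ### Numerical forms -/

lemma expLB {x : ℝ} (hx : 0 ≤ x) : 1 + x + x ^ 2 / 2 + x ^ 3 / 6 + x ^ 4 / 24 ≤ Real.exp x := by
  have h := Real.sum_le_exp_of_nonneg hx 5
  simp only [Finset.sum_range_succ, Finset.sum_range_zero, Nat.factorial] at h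
  norm_num at h
  linarith

lemma expUB {x : ℝ} (hx : 0 ≤ x) (hx1 : x ≤ 1) : Real.exp x ≤
    1 + x + x ^ 2 / 2 + x ^ 3 / 6 + x ^ 4 / 24 + x ^ 5 / 120 + x ^ 6 * 7 / 4320 := by
  have h := Real.exp_bound' hx hx1 (n := 6) (by norm_num)
  simp only [Finset.sum_range_succ, Finset.sum_range_zero, Nat.factorial] at h
  norm_num at h
  linarith

/-- from a lower bound to an upper bound -/
lemma stepU' (hU : ExtUStmt) (hS : SumCStmt) {k : ℕ} {p : ℝ} {X : ℕ → ℝ} (hp : 0 < p)
    (hX : SolX k p X) (hnt : ¬ Tendsto X atTop (𝓝 1)) {m0 c P : ℝ} (hpP : p ≤ P) (hP1 : P < 1)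
    (h0 : 0 ≤ m0) (h1 : m0 < 1) (hc : Cst k p c) (hev : ∀ᶠ n in atTop, m0 ≤ X n)
    (u L M' : ℝ) (hu : 1 - m0 ≤ u) (hu1 : u ≤ 1) (hL0 : 0 ≤ L)
    (hL : 1 ≤ (1 - P * u) * (1 + L + L ^ 2 / 2 + L ^ 3 / 6 + L ^ 4 / 24))
    (hM' : c * L ≤ M' * P) :
    ∀ᶠ n in atTop, X n ≤ Real.exp M' := by
  have hP : 0 < P := hp.trans_le hpP
  have hu0 : 0 < u := by linarith
  filter_upwards [stepU hU hS hp (hpP.trans_lt hP1) hX hnt h0 h1 hc hev] with n hn
  refine hn.trans (Real.exp_le_exp.2 ?_)
  have hPu : P * u < 1 := by nlinarith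
  have hLe : Real.exp (-L) ≤ 1 - P * u := by
    rw [Real.exp_neg]
    have h2 : 1 ≤ (1 - P * u) * Real.exp L :=
      hL.trans (mul_le_mul_of_nonneg_left (expLB hL0) (by linarith))
    rw [inv_le_iff_one_le_mul₀ (Real.exp_pos L)]
    exact h2
  have hθ0 : 0 ≤ p / P := by positivity
  have hθ1 : p / P ≤ 1 := (div_le_one hP).2 hpP
  have hB := rpow_one_add_le_one_add_mul_self (s := -(P * u)) (by linarith) hθ0 hθ1
  have e1 : 1 + p / P * (-(P * u)) = 1 - p * u := by field_simp; ring
  rw [e1] at hB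
  have h3 : Real.exp (-(L * (p / P))) ≤ 1 - p * u := by
    refine le_trans ?_ hB
    have : Real.exp (-(L * (p / P))) = Real.exp (-L) ^ (p / P) := by
      rw [← Real.exp_mul]
      congr 1
      ring
    rw [this]
    apply Real.rpow_le_rpow (Real.exp_pos _).le _ hθ0
    linarith
  have h4 : Real.exp (-(L * (p / P))) ≤ 1 - p + p * m0 := by
    refine h3.trans ?_
    nlinarith
  have h5 : -(L * (p / P)) ≤ Real.log (1 - p + p * m0) := by
    rw [Real.le_log_iff_exp_le (lt_of_lt_of_le (Real.exp_pos _) h4)]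
    exact h4
  have h6 : -Real.log (1 - p + p * m0) ≤ L * (p / P) := by linarith
  have hc0 := hc.nonneg
  rw [div_le_iff₀ hp]
  refine (mul_le_mul_of_nonneg_left h6 hc0).trans ?_
  have e2 : c * (L * (p / P)) = c * L * p / P := by ring
  rw [e2, div_le_iff₀ hP]
  nlinarith

lemma log_le_mul {p : ℝ} (hp : 0 < p) (hp1 : p < 1) {M φ : ℝ} (h : Real.exp M ≤ 1 + φ * M) :
    Real.log (1 - p + p * Real.exp M) ≤ p * φ * M := by
  have hG : 0 < 1 - p + p * Real.exp M := by
    have := Real.exp_pos M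
    have : 0 < p * Real.exp M := by positivity
    linarith
  have h1 := Real.log_le_sub_one_of_pos hG
  have h2 := mul_le_mul_of_nonneg_left h hp.le
  nlinarith

lemma cst_of {k : ℕ} {p a P φ κ : ℝ} (hp : 0 < p) (hpP : p ≤ P) (ha : p * (k + 1 / 2) ≤ a)
    (hφ : 0 < φ) (h1 : a * φ - 1 / 2 + (P * φ) ^ 2 / 8 ≤ κ) (h2 : (1 + P * φ / 2) ^ 2 / 2 ≤ κ) :
    Cst k (p * φ) κ := by
  have hle : p * φ ≤ P * φ := mul_le_mul_of_nonneg_right hpP hφ.le
  have h0 : 0 ≤ p * φ := by positivity
  have hsq : (p * φ) ^ 2 ≤ (P * φ) ^ 2 := pow_le_pow_left₀ h0 hle 2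
  constructor
  · have : p * φ * ((k : ℝ) + 1 / 2) ≤ a * φ := by
      have := mul_le_mul_of_nonneg_right ha hφ.le
      nlinarith
    linarith
  · refine le_trans ?_ h2
    have := pow_le_pow_left₀ (by linarith : 0 ≤ 1 + p * φ / 2)
      (by linarith : 1 + p * φ / 2 ≤ 1 + P * φ / 2) 2
    linarith

/-- one round -/
lemma round (hU : ExtUStmt) (hD : ExtDStmt) (hS : SumCStmt) {k : ℕ} {p : ℝ} {X : ℕ → ℝ}
    (hp : 0 < p) (hX : SolX k p X) (hnt : ¬ Tendsto X atTop (𝓝 1)) {c P a : ℝ} (hpP : p ≤ P)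
    (hP1 : P < 1) (ha : p * (k + 1 / 2) ≤ a) (hc : Cst k p c)
    (M φ κ m u L M' : ℝ) (hM : 0 < M) (hM1 : M ≤ 1) (hev : ∀ᶠ n in atTop, X n ≤ Real.exp M)
    (hφ : 0 < φ) (hMφ : 1 + M + M ^ 2 / 2 + M ^ 3 / 6 + M ^ 4 / 24 + M ^ 5 / 120 + M ^ 6 * 7 / 4320
      ≤ 1 + φ * M)
    (h1 : a * φ - 1 / 2 + (P * φ) ^ 2 / 8 ≤ κ) (h2 : (1 + P * φ / 2) ^ 2 / 2 ≤ κ)
    (hm : M * κ ≤ 2 * m) (hm0 : 0 < m) (hm1 : m ≤ 1)
    (hu : (1 - u) * (1 + m + m ^ 2 / 2 + m ^ 3 / 6 + m ^ 4 / 24 + m ^ 5 / 120 + m ^ 6 * 7 / 4320)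
      ^ 2 ≤ 1)
    (hu1 : u ≤ 1) (hL0 : 0 ≤ L)
    (hL : 1 ≤ (1 - P * u) * (1 + L + L ^ 2 / 2 + L ^ 3 / 6 + L ^ 4 / 24))
    (hM' : c * L ≤ M' * P) :
    ∀ᶠ n in atTop, X n ≤ Real.exp M' := by
  have hp1 : p < 1 := hpP.trans_lt hP1
  have hE : Real.exp M ≤ 1 + φ * M := (expUB hM.le hM1).trans hMφ
  have hev2 := stepD hD hS hp hp1 hX hnt hM (by positivity : 0 < p * φ) (log_le_mul hp hp1 hE)
    (cst_of hp hpP ha hφ h1 h2) hev
  have hev3 : ∀ᶠ n in atTop, Real.exp (-(2 * m)) ≤ X n := by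
    filter_upwards [hev2] with n hn
    exact (Real.exp_le_exp.2 (by linarith)).trans hn
  refine stepU' hU hS hp hX hnt hpP hP1 (Real.exp_pos _).le ?_ hc hev3 u L M' ?_ hu1 hL0 hL hM'
  · rw [Real.exp_lt_one_iff]
    linarith
  · have e1 : Real.exp (-(2 * m)) * Real.exp m ^ 2 = 1 := by
      rw [← Real.exp_nat_mul, ← Real.exp_add]
      norm_num
    have hUBm := expUB hm0.le hm1
    have h3 : Real.exp m ^ 2 ≤ (1 + m + m ^ 2 / 2 + m ^ 3 / 6 + m ^ 4 / 24 + m ^ 5 / 120 +
      m ^ 6 * 7 / 4320) ^ 2 := pow_le_pow_left₀ (Real.exp_pos m).le hUBm 2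
    have h4 : (1 - u) * Real.exp m ^ 2 ≤ 1 :=
      (mul_le_mul_of_nonneg_left h3 (by linarith)).trans hu
    have h5 : (1 - u) * Real.exp m ^ 2 ≤ Real.exp (-(2 * m)) * Real.exp m ^ 2 := by
      rw [e1]; exact h4
    have h6 := le_of_mul_le_mul_right h5 (by positivity)
    linarith

/-- the contraction -/
lemma contraction (hU : ExtUStmt) (hD : ExtDStmt) (hS : SumCStmt) {k : ℕ} {p : ℝ} {X : ℕ → ℝ}
    (hp : 0 < p) (hX : SolX k p X) (hnt : ¬ Tendsto X atTop (𝓝 1)) {c P a : ℝ} (hpP : p ≤ P)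
    (hP1 : P < 1) (ha : p * (k + 1 / 2) ≤ a) (hc : Cst k p c)
    (M φ κ : ℝ) (hM : 0 < M) (hM1 : M ≤ 1) (hev : ∀ᶠ n in atTop, X n ≤ Real.exp M)
    (hφ : 0 < φ) (hMφ : 1 + M + M ^ 2 / 2 + M ^ 3 / 6 + M ^ 4 / 24 + M ^ 5 / 120 + M ^ 6 * 7 / 4320
      ≤ 1 + φ * M)
    (h1 : a * φ - 1 / 2 + (P * φ) ^ 2 / 8 ≤ κ) (h2 : (1 + P * φ / 2) ^ 2 / 2 ≤ κ)
    (hκ : c * κ < 1) (hcp : 0 < c) : False := by
  have hp1 : p < 1 := hpP.trans_lt hP1
  have hE : Real.exp M ≤ 1 + φ * M := (expUB hM.le hM1).trans hMφ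
  have hκ0 : 0 < κ := lt_of_lt_of_le (by
    have : 0 < P := hp.trans_le hpP
    positivity) h2
  have hE2 : ∀ M1, 0 < M1 → M1 ≤ M → Real.exp M1 ≤ 1 + φ * M1 := by
    intro M1 hM0 hMM
    have h := convexOn_exp.2 (Set.mem_univ (0 : ℝ)) (Set.mem_univ M)
      (by rw [sub_nonneg]; exact (div_le_one hM).2 hMM : 0 ≤ 1 - M1 / M)
      (by positivity : 0 ≤ M1 / M) (by ring)
    simp only [smul_eq_mul, mul_zero, zero_add, Real.exp_zero, mul_one] at h
    have e1 : M1 / M * M = M1 := by field_simp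
    rw [e1] at h
    refine h.trans ?_
    have h3 := mul_le_mul_of_nonneg_left hE (by positivity : 0 ≤ M1 / M)
    have e2 : M1 / M * (1 + φ * M) = M1 / M + φ * M1 := by field_simp
    rw [e2] at h3
    linarith
  set r := c * κ with hr
  have hr0 : 0 < r := by positivity
  have hlow : ∀ M1, 0 < M1 → M1 ≤ M → (∀ᶠ n in atTop, X n ≤ Real.exp M1) →
      ∀ᶠ n in atTop, Real.exp (-(M1 * κ)) ≤ X n := by
    intro M1 hM0 hMM h
    exact stepD hD hS hp hp1 hX hnt hM0 (by positivity : 0 < p * φ)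
      (log_le_mul hp hp1 (hE2 M1 hM0 hMM)) (cst_of hp hpP ha hφ h1 h2) h
  have hall : ∀ n : ℕ, ∀ᶠ j in atTop, X j ≤ Real.exp (r ^ n * M) := by
    intro n
    induction n with
    | zero => simpa using hev
    | succ n ih =>
      have hM0 : 0 < r ^ n * M := by positivity
      have hMM : r ^ n * M ≤ M := mul_le_of_le_one_left hM.le (pow_le_one₀ hr0.le hκ.le)
      have hl := hlow _ hM0 hMM ih
      have hlt : Real.exp (-(r ^ n * M * κ)) < 1 := by
        rw [Real.exp_lt_one_iff]
        have : 0 < r ^ n * M * κ := by positivity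
        linarith
      filter_upwards [stepU hU hS hp hp1 hX hnt (Real.exp_pos _).le hlt hc hl] with j hj
      refine hj.trans (Real.exp_le_exp.2 ?_)
      have h3 := expA hp hp1 (r ^ n * M * κ)
      have h4 : -(p * (r ^ n * M * κ)) ≤
          Real.log (1 - p + p * Real.exp (-(r ^ n * M * κ))) := by
        rw [Real.le_log_iff_exp_le (lt_of_lt_of_le (Real.exp_pos _) h3)]
        exact h3
      rw [div_le_iff₀ hp]
      have h5 : -Real.log (1 - p + p * Real.exp (-(r ^ n * M * κ))) ≤ p * (r ^ n * M * κ) := by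
        linarith
      refine (mul_le_mul_of_nonneg_left h5 hcp.le).trans (le_of_eq ?_)
      rw [pow_succ, hr]
      ring
  apply hnt
  have htend : Tendsto (fun n : ℕ => r ^ n * M) atTop (𝓝 0) := by
    have := (tendsto_pow_atTop_nhds_zero_of_lt_one hr0.le hκ).mul_const M
    simpa using this
  rw [tendsto_order]
  constructor
  · intro b hb
    have ht : Tendsto (fun n : ℕ => Real.exp (-(r ^ n * M * κ))) atTop (𝓝 1) := by
      have h3 := (htend.mul_const κ).neg
      simp only [zero_mul, neg_zero] at h3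
      have h4 := (Real.continuous_exp.tendsto 0).comp h3
      rw [Real.exp_zero] at h4
      exact h4
    obtain ⟨n, hn⟩ := ((tendsto_order.1 ht).1 b hb).exists
    have hM0 : 0 < r ^ n * M := by positivity
    have hMM : r ^ n * M ≤ M := mul_le_of_le_one_left hM.le (pow_le_one₀ hr0.le hκ.le)
    filter_upwards [hlow _ hM0 hMM (hall n)] with j hj
    exact hn.trans_le hj
  · intro b hb
    have ht : Tendsto (fun n : ℕ => Real.exp (r ^ n * M)) atTop (𝓝 1) := by
      have h4 := (Real.continuous_exp.tendsto 0).comp htend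
      rw [Real.exp_zero] at h4
      exact h4
    obtain ⟨n, hn⟩ := ((tendsto_order.1 ht).2 b hb).exists
    filter_upwards [hall n] with j hj
    exact lt_of_le_of_lt hj hn

lemma pc_le (k : ℕ) : pc k * (k + 1 / 2) ≤ Real.pi / 2 := by
  unfold pc
  have hk : (0 : ℝ) < 2 * (2 * k + 1) := by positivity
  have h := Real.sin_le (x := Real.pi / (2 * (2 * (k : ℝ) + 1))) (by positivity)
  have h2 := mul_le_mul_of_nonneg_right h (by positivity : (0 : ℝ) ≤ 2 * ((k : ℝ) + 1 / 2))
  have e : Real.pi / (2 * (2 * (k : ℝ) + 1)) * (2 * ((k : ℝ) + 1 / 2)) = Real.pi / 2 := by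
    field_simp
  rw [e] at h2
  linarith

/-- Packet GAS. -/
theorem gas (hU : ExtUStmt) (hD : ExtDStmt) (hS : SumCStmt) : GasStmt := by
  intro k p X hp hX hcase
  by_contra hnt
  have hpi := Real.pi_lt_d6
  have hpc := pc_le k
  rcases hcase with ⟨h3, _, hpp⟩ | ⟨h19, hpp⟩
  · have hk : (3 : ℝ) ≤ k := by exact_mod_cast h3
    have ha : p * (k + 1 / 2) ≤ 12567 / 10000 := by nlinarith
    have hP : p ≤ 36 / 100 := by nlinarith
    have hc : Cst k p (7729 / 10000) := by
      constructor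
      · nlinarith
      · nlinarith
    have hm0 : ∀ᶠ n in atTop, (0 : ℝ) ≤ X n := Eventually.of_forall fun n => (hX.1 n).le
    have hA := stepU' hU hS hp hX hnt hP (by norm_num) le_rfl one_pos hc hm0 1 (4465 / 10000)
      (9595 / 10000) (by norm_num) (by norm_num) (by norm_num) (by norm_num) (by norm_num)
    have hB := round hU hD hS hp hX hnt hP (by norm_num) ha hc (9595 / 10000) (16787 / 10000)
      (16555 / 10000) (7943 / 10000) (7959 / 10000) (33785 / 100000) (7255 / 10000)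
      (by norm_num) (by norm_num) hA (by norm_num) (by norm_num) (by norm_num) (by norm_num)
      (by norm_num) (by norm_num) (by norm_num) (by norm_num) (by norm_num) (by norm_num)
      (by norm_num) (by norm_num)
    have hC := round hU hD hS hp hX hnt hP (by norm_num) ha hc (7255 / 10000) (14692 / 10000)
      (13815 / 10000) (50115 / 100000) (6333 / 10000) (2590 / 10000) (5562 / 10000)
      (by norm_num) (by norm_num) hB (by norm_num) (by norm_num) (by norm_num) (by norm_num)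
      (by norm_num) (by norm_num) (by norm_num) (by norm_num) (by norm_num) (by norm_num)
      (by norm_num) (by norm_num)
    exact contraction hU hD hS hp hX hnt hP (by norm_num) ha hc (5562 / 10000) (13380 / 10000)
      (12105 / 10000) (by norm_num) (by norm_num) hC (by norm_num) (by norm_num) (by norm_num)
      (by norm_num) (by norm_num) (by norm_num)
  · have hk : (19 : ℝ) ≤ k := by exact_mod_cast h19
    have ha : p * (k + 1 / 2) ≤ 13352 / 10000 := by nlinarith
    have hP : p ≤ 685 / 10000 := by nlinarith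
    have hc : Cst k p (8358 / 10000) := by
      constructor
      · nlinarith
      · nlinarith
    have hm0 : ∀ᶠ n in atTop, (0 : ℝ) ≤ X n := Eventually.of_forall fun n => (hX.1 n).le
    have hA := stepU' hU hS hp hX hnt hP (by norm_num) le_rfl one_pos hc hm0 1 (7097 / 100000)
      (8660 / 10000) (by norm_num) (by norm_num) (by norm_num) (by norm_num) (by norm_num)
    have hB := round hU hD hS hp hX hnt hP (by norm_num) ha hc (8660 / 10000) (15907 / 10000)
      (16255 / 10000) (7040 / 10000) (7555 / 10000) (53142 / 1000000) (6485 / 10000)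
      (by norm_num) (by norm_num) hA (by norm_num) (by norm_num) (by norm_num) (by norm_num)
      (by norm_num) (by norm_num) (by norm_num) (by norm_num) (by norm_num) (by norm_num)
      (by norm_num) (by norm_num)
    have hC := round hU hD hS hp hX hnt hP (by norm_num) ha hc (6485 / 10000) (14075 / 10000)
      (13806 / 10000) (44768 / 100000) (5917 / 10000) (4138 / 100000) (5050 / 10000)
      (by norm_num) (by norm_num) hB (by norm_num) (by norm_num) (by norm_num) (by norm_num)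
      (by norm_num) (by norm_num) (by norm_num) (by norm_num) (by norm_num) (by norm_num)
      (by norm_num) (by norm_num)
    have hE := round hU hD hS hp hX hnt hP (by norm_num) ha hc (5050 / 10000) (13010 / 10000)
      (12381 / 10000) (31270 / 100000) (4650 / 10000) (3238 / 100000) (3952 / 10000)
      (by norm_num) (by norm_num) hC (by norm_num) (by norm_num) (by norm_num) (by norm_num)
      (by norm_num) (by norm_num) (by norm_num) (by norm_num) (by norm_num) (by norm_num)
      (by norm_num) (by norm_num)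
    exact contraction hU hD hS hp hX hnt hP (by norm_num) ha hc (3952 / 10000) (12265 / 10000)
      (11386 / 10000) (by norm_num) (by norm_num) hE (by norm_num) (by norm_num) (by norm_num)
      (by norm_num) (by norm_num) (by norm_num)

end Pool.Agent.Helper97.DL
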